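import Pool.Agent.Helper22.FF.Sect
import Pool.Agent.Helper22.TW.Stmts

set_option autoImplicit false

namespace Pool.Agent.Helper22.FF

open Pool.Agent.Helper14.BSC Polynomial Pool.Agent.Helper60.FF Pool.Agent.Helper18.FF3

section

variable {F k Ω : Type} [Field F] [Field k] [Field Ω] [Algebra F Ω]
  [Algebra k Ω] [Algebra (RatFunc F) k]

theorem kmr_acl (hFU : FU F k Ω) (s : Acl F Ω) : (s : Ω) ∈ Acl k Ω := by
  let _ : Algebra F k := ((algebraMap (RatFunc F) k).comp RatFunc.C).toAlgebra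
  have _ : IsScalarTower F k Ω := IsScalarTower.of_algebraMap_eq hFU.com
  have h1 : IsAlgebraic F (s : Ω) := mem_algebraicClosure_iff.1 s.2
  rw [mem_algebraicClosure_iff]
  exact h1.tower_top k

theorem kmr_kS (hFU : FU F k Ω) (S : Set (Acl F Ω)) :
    kS k S = IntermediateField.adjoin k ((fun a : Acl k Ω => (a : Ω)) '' upS k S) := by
  unfold kS
  congr 1
  ext x
  constructor
  · rintro ⟨s, hs, rfl⟩
    exact ⟨⟨(s : Ω), kmr_acl hFU s⟩, ⟨s, hs, rfl⟩, rfl⟩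
  · rintro ⟨a, ⟨s, hs, hsa⟩, rfl⟩
    exact ⟨s, hs, hsa⟩

theorem kmr_kS_acl (hFU : FU F k Ω) (S : Set (Acl F Ω)) (x : Ω) (hx : x ∈ kS k S) :
    x ∈ Acl k Ω := by
  have h : kS k S ≤ Acl k Ω := by
    unfold kS
    rw [IntermediateField.adjoin_le_iff]
    rintro _ ⟨s, _, rfl⟩
    exact kmr_acl hFU s
  exact h hx

end

/-- conjugation acts on `TT` -/
theorem kmr_conj {F k Ω : Type} [Field F] [Field k] [Field Ω] [Algebra F Ω]
    [Algebra k Ω] [Algebra (RatFunc F) k] {p : ℕ} [Fact p.Prime] (ι₀ : Acl F Ω →+* ℂ_[p])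
    (E : IntermediateField ℚ_[p] ℂ_[p]) (hE : ∀ a : F, ι₀ (algebraMap F (Acl F Ω) a) ∈ E)
    (τ : ℂ_[p]) (hτ : τ ∈ E) (S : Set (Acl F Ω)) (hS : ∀ s ∈ S, ι₀ s ∈ E)
    (σ : kS k S →+* ℂ_[p]) (hσ : σ ∈ TT k ι₀ S τ) (ρ : Es E σ →ₐ[ℚ_[p]] ℂ_[p])
    (hρ : FixE E σ ρ) : ∃ σ' ∈ TT k ι₀ S τ, Cj E σ σ' ρ := by
  obtain ⟨h1, h2, h3⟩ := hσ
  let σ₁ : kS k S →+* Es E σ := σ.codRestrict (Es E σ) (mem_Es E σ)
  let σ' : kS k S →+* ℂ_[p] := (ρ : Es E σ →+* ℂ_[p]).comp σ₁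
  have h4 : ∀ y, σ' y = ρ ⟨σ y, mem_Es E σ y⟩ := fun y => rfl
  have key : ∀ y, ∀ z ∈ E, σ y = z → σ' y = z := by
    intro y z hz hyz
    rw [h4]
    have h5 := hρ (σ y) (mem_Es E σ y) (by rw [hyz]; exact hz)
    rw [h5, hyz]
  refine ⟨σ', ⟨?_, ?_, ?_⟩, hρ, fun y => rfl⟩
  · intro a
    exact key _ _ (hE a) (h1 a)
  · intro s hs
    exact key _ _ (hS s hs) (h2 s hs)
  · exact key _ _ hτ h3

theorem st_KMR (hORB : ST_ORB) (hEQV : ST_EQV) (hEFD : ST_EFD) (hBCS : ST_BCS) (hVL : ST_VL)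
    (hRK : Pool.Agent.Helper14.BSC.ST_RK) (hBOT : Pool.Agent.Helper14.BSC.ST_BOT)
    (hPL : Pool.Agent.Helper22.TW.ST_PL) : ST_KMR := by
  intro F k Ω _ _ _ _ _ _ _ _ _ _ hFU D t ht p _ ι₀ E hEf hEι τ hτ S hSf hSE hf hprod h₀
    c c' e e' g g' γ γ' m hm he he' hg hg' hte hte' hc hc' hχ hχ'
  classical
  obtain ⟨D', hD'⟩ := hBCS k Ω D (upS k S) (kS k S) (kmr_kS hFU S)
  have hLN : ∀ x : Ω, x ∈ LL D → x ∈ NN D (upS k S) := by
    intro x hx g _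
    exact hx g (fun a ha => ha.elim)
  have hLL : ∀ x : Ω, x ∈ LL D → x ∈ LL D' := fun x hx => (hD' x).2 (hLN x hx)
  let t' : LL D' := ⟨(t : Ω), hLL _ t.2⟩
  have hcz : CharZero (kS k S) := charZero_of_injective_algebraMap (algebraMap k (kS k S)).injective
  have ht' : ∀ c : kS k S, t' ≠ algebraMap (kS k S) (LL D') c := by
    intro c hc
    have h1 : (t : Ω) = (c : Ω) := congrArg Subtype.val hc
    have h2 : (t : Ω) ∈ Acl k Ω := by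
      rw [h1]
      exact kmr_kS_acl hFU S _ c.2
    obtain ⟨a, ha⟩ := hBOT k Ω ⟨(t : Ω), h2⟩ (by
      rw [← coe_mem_NN (D := D)]
      exact t.2)
    have ha' : (t : Ω) = (algebraMap k Ω a) := by
      have h3 := congrArg (fun z : Acl k Ω => (z : Ω)) ha
      exact h3
    refine ht a ?_
    apply Subtype.ext
    exact ha'
  have hcoe : ∀ c : kS k S, ((algebraMap (kS k S) (LL D') c : LL D') : Ω) = (c : Ω) := fun _ => rfl
  have h0 : t' - algebraMap (kS k S) (LL D') c ≠ 0 := sub_ne_zero.2 (ht' c)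
  have h0' : t' - algebraMap (kS k S) (LL D') c' ≠ 0 := sub_ne_zero.2 (ht' c')
  let G : LL D' := ⟨g, (hD' g).2 hg⟩
  let G' : LL D' := ⟨g', (hD' g').2 hg'⟩
  have e1 : t' - algebraMap (kS k S) (LL D') c = algebraMap (kS k S) (LL D') e * G ^ m :=
    Subtype.ext hte
  have e1' : t' - algebraMap (kS k S) (LL D') c' = algebraMap (kS k S) (LL D') e' * G' ^ m :=
    Subtype.ext hte'
  have hG : G ≠ 0 := by
    intro h
    rw [h, zero_pow hm.ne', mul_zero] at e1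
    exact h0 e1
  have hG' : G' ≠ 0 := by
    intro h
    rw [h, zero_pow hm.ne', mul_zero] at e1'
    exact h0' e1'
  obtain ⟨f, hfdef⟩ : ∃ f : LL D', f = (t' - algebraMap (kS k S) (LL D') c) /
      (t' - algebraMap (kS k S) (LL D') c') := ⟨_, rfl⟩
  have e2 : f = algebraMap (kS k S) (LL D') (e / e') * (G / G') ^ m := by
    rw [hfdef, e1, e1', map_div₀, div_pow, mul_div_mul_comm]
  -- the polynomial χ
  have hchi : chi D t ι₀ τ = ∏ σ' ∈ hf.toFinset, psi D t (σ'.comp (algebraMap k (kS k S))) := by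
    unfold chi
    rw [dif_pos h₀]
    exact hprod (psi D t) h₀
  have hchie : ∀ z, (chi D t ι₀ τ).eval z =
      ∏ σ' ∈ hf.toFinset, (psi D t (σ'.comp (algebraMap k (kS k S)))).eval z := by
    intro z
    rw [hchi, Polynomial.eval_prod]
  have hne : ∀ z, (chi D t ι₀ τ).eval z ≠ 0 → ∀ σ' ∈ TT k ι₀ S τ,
      (psi D t (σ'.comp (algebraMap k (kS k S)))).eval z ≠ 0 := by
    intro z hz σ' hσ'
    rw [hchie, Finset.prod_ne_zero_iff] at hz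
    exact hz σ' (hf.mem_toFinset.2 hσ')
  have hEs : ∀ σ' ∈ TT k ι₀ S τ, FiniteDimensional ℚ_[p] (Es E σ') :=
    (hEFD F k Ω hFU p ι₀ E hEf hEι τ hτ).1 S hSf hSE
  -- places
  have hP : ∀ σ' ∈ TT k ι₀ S τ, ∃ (P' : Place D' p σ') (h : f ∈ P'.C), P'.φ ⟨f, h⟩ ≠ 0 ∧
      P'.φ ⟨f, h⟩ * (psi D t (σ'.comp (algebraMap k (kS k S)))).eval γ' =
        (psi D t (σ'.comp (algebraMap k (kS k S)))).eval γ ∧
      ∃ w ∈ Es E σ', w ≠ 0 ∧ σ' (e / e') = P'.φ ⟨f, h⟩ * w ^ m := by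
    intro σ' hσ'
    obtain ⟨P', _⟩ := hRK (kS k S) Ω D' p σ' (Es E σ') (hEs σ' hσ') (mem_Es E σ')
    have h1 := hVL k Ω D (kS k S) D' hLL t t' rfl ht' p σ' P' c c'
      (by rw [hc σ' hσ']; exact hne γ hχ σ' hσ') (by rw [hc' σ' hσ']; exact hne γ' hχ' σ' hσ')
    rw [hc σ' hσ', hc' σ' hσ', ← hfdef] at h1
    obtain ⟨h, h2, h3⟩ := h1
    obtain ⟨_, hPL2⟩ := hPL (kS k S) Ω D' p σ' (Es E σ') (hEs σ' hσ') (mem_Es E σ') P'
    obtain ⟨w, hw, hw0, hw1⟩ := hPL2 ⟨f, h⟩ h2 m hm (e / e') (G / G') e2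
    exact ⟨P', h, h2, h3, w, hw, hw0, hw1⟩
  choose P' hfP hv0 hvpsi hw using hP
  obtain ⟨W, hW⟩ : ∃ W : (kS k S →+* ℂ_[p]) → ℂ_[p], ∀ σ' (hσ : σ' ∈ TT k ι₀ S τ),
      W σ' = σ' (e / e') / (P' σ' hσ).φ ⟨f, hfP σ' hσ⟩ := by
    refine ⟨fun σ' => if hσ : σ' ∈ TT k ι₀ S τ then
      σ' (e / e') / (P' σ' hσ).φ ⟨f, hfP σ' hσ⟩ else 0, ?_⟩
    intro σ' hσ
    simp only [dif_pos hσ]
  obtain ⟨w₀, hw₀E, hw₀⟩ := hORB p (kS k S) E hEf hf.toFinset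
    (fun σ hσ => hEs σ (hf.mem_toFinset.1 hσ))
    (fun σ hσ ρ hρ => by
      obtain ⟨σ'', h1, h2⟩ := kmr_conj ι₀ E hEι τ hτ S hSE σ (hf.mem_toFinset.1 hσ) ρ hρ
      exact ⟨σ'', hf.mem_toFinset.2 h1, h2⟩) W m hm
    (fun σ hσ => by
      have hσ' := hf.mem_toFinset.1 hσ
      obtain ⟨w, hwE, _, hw1⟩ := hw σ hσ'
      refine ⟨w, hwE, ?_⟩
      rw [hW σ hσ', hw1, mul_div_cancel_left₀ _ (hv0 σ hσ')])
    (fun σ hσ σ' hσ' ρ hρ hWE => by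
      have h1 := hf.mem_toFinset.1 hσ
      have h2 := hf.mem_toFinset.1 hσ'
      obtain ⟨_, h3⟩ := hEQV (kS k S) Ω D' p σ σ' (Es E σ) (hEs σ h1) (mem_Es E σ) ρ hρ.2
        (P' σ h1) (P' σ' h2)
      obtain ⟨h4, h5⟩ := h3 f (hfP σ h1) (hfP σ' h2)
      rw [hW σ' h2, h5, ← hρ.2 (e / e'), ← map_div₀]
      congr 1
      apply Subtype.ext
      exact (hW σ h1).symm)
  -- conclusion
  have hee : (∏ σ' ∈ hf.toFinset, W σ') * (∏ σ' ∈ hf.toFinset, σ' e') * (chi D t ι₀ τ).eval γ =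
      (∏ σ' ∈ hf.toFinset, σ' e) * (chi D t ι₀ τ).eval γ' := by
    rw [hchie γ, hchie γ', ← Finset.prod_mul_distrib, ← Finset.prod_mul_distrib,
      ← Finset.prod_mul_distrib]
    refine Finset.prod_congr rfl ?_
    intro σ' hσ
    have h1 := hf.mem_toFinset.1 hσ
    have h2 := hvpsi σ' h1
    have h3 : σ' e' ≠ 0 := (map_ne_zero σ').2 he'
    rw [hW σ' h1, ← h2, map_div₀]
    have h4 := hv0 σ' h1
    field_simp
  have hR : (∏ σ' ∈ hf.toFinset, σ' e) * (chi D t ι₀ τ).eval γ' ≠ 0 := by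
    refine mul_ne_zero ?_ hχ'
    rw [Finset.prod_ne_zero_iff]
    intro σ' _
    exact (map_ne_zero σ').2 he
  have hw0 : w₀ ^ m ≠ 0 := by
    rw [← hw₀]
    intro h
    rw [h, zero_mul, zero_mul] at hee
    exact hR hee.symm
  have hw00 : w₀ ≠ 0 := by
    intro h
    rw [h, zero_pow hm.ne'] at hw0
    exact hw0 rfl
  refine ⟨w₀⁻¹, E.inv_mem hw₀E, inv_ne_zero hw00, ?_⟩
  rw [hw₀] at hee
  rw [inv_pow, ← div_eq_mul_inv, eq_div_iff hw0]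
  linear_combination hee

end Pool.Agent.Helper22.FF
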